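import Mathlib
import Pool.Agent.WSatUp.First2
import Pool.Agent.WSatUp.Fwd2

namespace Pool.Agent.Results.MP_39539f_lc.CircuitStrict

open Pool.Agent.WSatChain Pool.Agent.WSatAC0 Pool.Agent.WSatUp Filter

/-- Reductions computed by nonuniform unbounded fan-in circuits of size `e(k) * (n + 1) ^ c` and
depth `o(log n / log log n)`: the chain holds, and every inequality of the chain below `PROP`, and
the inequality between each `Γ_{t,d}` and `PROP`, is strict. For a single slice: if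
`100000 (t + d) (c + 1) ^ 4 ≤ k` and `100000 (t + d) (c + 1) D(n) log log n ≤ log n` for all large
`n`, then the slice `k` of `p-WSAT(Γ_{t+1,1})` and that of `p-WSAT(PROP)` do not reduce to
`p-WSAT(Γ_{t,d})` by circuits of size `O(n ^ c)` and depth `D(n)`; similarly for `Γ_{1,2}` and
`Γ_{1,1}`. -/
theorem result :
    (ReducesAC (GAMMA 1 1) (GAMMA 1 2) ∧ ReducesAC (GAMMA 1 2) (GAMMA 2 1) ∧
      (∀ t, ReducesAC (GAMMA t 1) (GAMMA (t + 1) 1)) ∧
      (∀ t, ReducesAC (GAMMA t 1) PROP) ∧ ReducesAC PROP CIRC) ∧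
    (∀ t d c k : ℕ, 1 ≤ t → 100000 * (t + d) * (c + 1) ^ 4 ≤ k → ∀ D : ℕ → ℕ,
      (∀ᶠ n : ℕ in atTop, (100000 * (t + d) * (c + 1) : ℕ) * (D n : ℝ) *
        Real.log (Real.log n) ≤ Real.log n) →
      ¬ SliceAC D c k (GAMMA (t + 1) 1) (GAMMA t d) ∧ ¬ SliceAC D c k PROP (GAMMA t d)) ∧
    (∀ c k : ℕ, 100000 * (c + 1) ≤ k → ∀ D : ℕ → ℕ,
      (∀ᶠ n : ℕ in atTop, (100000 * (c + 1) : ℕ) * (D n : ℝ) *
        Real.log (Real.log n) ≤ Real.log n) →
      ¬ SliceAC D c k (GAMMA 1 2) (GAMMA 1 1)) ∧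
    (∀ t d, 1 ≤ t →
      ¬ ReducesAC (GAMMA (t + 1) 1) (GAMMA t d) ∧ ¬ ReducesAC PROP (GAMMA t d)) ∧
    ¬ ReducesAC (GAMMA 1 2) (GAMMA 1 1) := by
  have hmono : ∀ (K K' : ℕ), K ≤ K' → ∀ D : ℕ → ℕ,
      (∀ᶠ n : ℕ in atTop, (K' : ℝ) * (D n : ℝ) * Real.log (Real.log n) ≤ Real.log n) →
      ∀ᶠ n : ℕ in atTop, (K : ℝ) * (D n : ℝ) * Real.log (Real.log n) ≤ Real.log n := by
    intro K K' hK D hD
    have h1 : Tendsto (fun n : ℕ => Real.log (n : ℝ)) atTop atTop :=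
      Real.tendsto_log_atTop.comp tendsto_natCast_atTop_atTop
    filter_upwards [hD, h1.eventually_ge_atTop 1] with n h2 h3
    refine le_trans ?_ h2
    have h4 : 0 ≤ Real.log (Real.log n) := Real.log_nonneg h3
    have h5 : (K : ℝ) ≤ K' := by exact_mod_cast hK
    gcongr
  have h1 : ∀ t d c k : ℕ, 1 ≤ t → 100000 * (t + d) * (c + 1) ^ 4 ≤ k → ∀ D : ℕ → ℕ,
      (∀ᶠ n : ℕ in atTop, (100000 * (t + d) * (c + 1) : ℕ) * (D n : ℝ) *
        Real.log (Real.log n) ≤ Real.log n) →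
      ¬ SliceAC D c k (GAMMA (t + 1) 1) (GAMMA t d) ∧
        ¬ SliceAC D c k PROP (GAMMA t d) := by
    intro t d c k ht hk D hD
    obtain ⟨s, rfl⟩ : ∃ s, t = s + 1 := ⟨t - 1, by omega⟩
    have e1 : 40000 * (d + 1) + 7000 * (s + 1) ≤ 100000 * (s + 1 + d) := by omega
    have h2 : ¬ SliceAC D c k (GAMMA (s + 1 + 1) 1) (GAMMA (s + 1) d) :=
      not_slice_up s d c k ((Nat.mul_le_mul_right _ e1).trans hk) D
        (hmono _ _ (Nat.mul_le_mul_right _ e1) D hD)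
    exact ⟨h2, fun h => h2 (sliceAC_sub_left (fun U C h => h.1) h)⟩
  have h2 : ∀ c k : ℕ, 100000 * (c + 1) ≤ k → ∀ D : ℕ → ℕ,
      (∀ᶠ n : ℕ in atTop, (100000 * (c + 1) : ℕ) * (D n : ℝ) *
        Real.log (Real.log n) ≤ Real.log n) →
      ¬ SliceAC D c k (GAMMA 1 2) (GAMMA 1 1) := by
    intro c k hk D hD
    exact not_slice_first_up c k (by omega) D (hmono _ _ (by omega) D hD)
  refine ⟨⟨?_, ?_, ?_, ?_, ?_⟩, h1, h2, ?_, ?_⟩
  · exact reducesAC_of_sub (gamma_sub_d (by omega)) (isoInv_gamma 1 2)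
  · exact reducesAC_of_sub gamma_sub_succ (isoInv_gamma 2 1)
  · intro t
    exact reducesAC_of_sub gamma_sub_succ (isoInv_gamma (t + 1) 1)
  · intro t
    exact reducesAC_of_sub (fun U C h => h.1) isoInv_prop
  · exact reducesAC_of_sub (fun U C h => h.toIsCircuit) isoInv_circ
  · intro t d ht
    constructor
    · rintro ⟨c, h⟩
      obtain ⟨D, hD, h⟩ := h (100000 * (t + d) * (c + 1) ^ 4)
      exact (h1 t d c _ ht (le_refl _) D (hD _)).1 h
    · rintro ⟨c, h⟩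
      obtain ⟨D, hD, h⟩ := h (100000 * (t + d) * (c + 1) ^ 4)
      exact (h1 t d c _ ht (le_refl _) D (hD _)).2 h
  · rintro ⟨c, h⟩
    obtain ⟨D, hD, h⟩ := h (100000 * (c + 1))
    exact h2 c _ (le_refl _) D (hD _) h

end Pool.Agent.Results.MP_39539f_lc.CircuitStrict
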