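import Mathlib
import Pool.Agent.WSatCount.CountForward
import Pool.Agent.WSatCount.CountLink
import Pool.Agent.WSatCount.KGame
import Pool.Agent.WSatCount.PathLink

namespace Pool.Agent.Results.MP_39539f_lc.CountStrict

open Pool.Agent.WSatChain Pool.Agent.WSatCount

/-- Reductions definable in infinitary logic with *full counting* and `c(k)` variables (this
contains all fpt-reductions definable in fixed-point logic with counting, which have bounded
`c`): the chain holds with two variables; `CIRC` does not reduce to `PROP` as soon as `c(k) ≤ k`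
for one single value of the parameter `k`; `Γ_{t+1,1}` and `PROP` do not reduce to any `Γ_{t,d}`,
`t ≥ 1`, as soon as `c(k) < k` for one `k`; `Γ_{1,2}` does not reduce to `Γ_{1,1}` as soon as
`2 c(k) < k` for one `k`; with `k + 2` variables everything reduces to `Γ_{1,1}`. -/
theorem result :
    (ReducesCount (fun _ => 2) (GAMMA 1 1) (GAMMA 1 2) ∧
      ReducesCount (fun _ => 2) (GAMMA 1 2) (GAMMA 2 1) ∧
      (∀ t, ReducesCount (fun _ => 2) (GAMMA t 1) (GAMMA (t + 1) 1)) ∧
      (∀ t, ReducesCount (fun _ => 2) (GAMMA t 1) PROP) ∧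
      ReducesCount (fun _ => 2) PROP CIRC) ∧
    (∀ c : ℕ → ℕ,
      ((∃ k, 2 * c k < k) → ¬ ReducesCount c (GAMMA 1 2) (GAMMA 1 1)) ∧
      (∀ t d, 1 ≤ t → (∃ k, c k < k) →
        ¬ ReducesCount c (GAMMA (t + 1) 1) (GAMMA t d) ∧ ¬ ReducesCount c PROP (GAMMA t d)) ∧
      ((∃ k, c k ≤ k) → ¬ ReducesCount c CIRC PROP)) ∧
    ReducesCount (fun k => k + 2) CIRC (GAMMA 1 1) := by
  refine ⟨⟨?_, ?_, ?_, ?_, ?_⟩, ?_, count_brute⟩
  · exact count_of_sub (gamma_sub_d (by omega)) (isoInv_gamma 1 2)
  · exact count_of_sub gamma_sub_succ (isoInv_gamma 2 1)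
  · intro t
    exact count_of_sub gamma_sub_succ (isoInv_gamma (t + 1) 1)
  · intro t
    exact count_of_sub (fun U C h => h.1) isoInv_prop
  · exact count_of_sub (fun U C h => h.toIsCircuit) isoInv_circ
  · intro c
    refine ⟨not_reduces_count_first c, ?_, Path.not_reduces_circ_prop c⟩
    intro t d ht hc
    obtain ⟨s, rfl⟩ : ∃ s, t = s + 1 := ⟨t - 1, by omega⟩
    exact ⟨not_reduces_count s d c hc,
      fun h => not_reduces_count s d c hc (count_sub_left (fun U C h => h.1) h)⟩

end Pool.Agent.Results.MP_39539f_lc.CountStrict
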