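import Mathlib
import Pool.Agent.WSatQ97.Fwd
import Pool.Agent.WSatQ97.FinalLo

namespace Pool.Agent.Results.MP_39539f_lc.LocalStrict

open Pool.Agent.WSatChain Pool.Agent.WSatAC0 Pool.Agent.WSatQ97

/-- The chain of weighted satisfiability problems under local reductions: every slice reduces
upwards with one question per output bit, but for no `k ≥ 1` and no `δ > 0` does the slice `k` of
`p-WSAT(Γ_{t+1,1})`, of `p-WSAT(PROP)` or of `p-WSAT(Γ_{1,2})` reduce to `p-WSAT(Γ_{t,d})`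
(`t ≥ 1`), respectively to `p-WSAT(Γ_{1,1})`, by reductions in which every output bit is computed
with `c * (n + 1) ^ (1 - δ)` questions; not even by bounded truth-table reductions, with outputs of
polynomial size of any degree, and on formulas with at most `2 * n` wires. -/
theorem result :
    (∀ k, SliceLoc (fun _ => 1) k (GAMMA 1 1) (GAMMA 1 2) ∧
      SliceLoc (fun _ => 1) k (GAMMA 1 2) (GAMMA 2 1) ∧
      (∀ t, SliceLoc (fun _ => 1) k (GAMMA t 1) (GAMMA (t + 1) 1)) ∧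
      (∀ t, SliceLoc (fun _ => 1) k (GAMMA t 1) PROP) ∧
      SliceLoc (fun _ => 1) k PROP CIRC) ∧
    (∀ c δ : ℝ, 0 < δ → ∀ k, 1 ≤ k →
      ¬ SliceTT (fun n => c * ((n : ℝ) + 1) ^ (1 - δ)) k (Sparse (GAMMA 1 2)) (GAMMA 1 1) ∧
      ∀ t d, 1 ≤ t →
        ¬ SliceTT (fun n => c * ((n : ℝ) + 1) ^ (1 - δ)) k (Sparse (GAMMA (t + 1) 1))
          (GAMMA t d) ∧
        ¬ SliceTT (fun n => c * ((n : ℝ) + 1) ^ (1 - δ)) k (Sparse PROP) (GAMMA t d)) := by
  refine ⟨fun k => ⟨?_, ?_, ?_, ?_, ?_⟩, ?_⟩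
  · exact loc_of_sub (gamma_sub_d (by omega)) (isoInv_gamma 1 2) k
  · exact loc_of_sub gamma_sub_succ (isoInv_gamma 2 1) k
  · intro t
    exact loc_of_sub gamma_sub_succ (isoInv_gamma (t + 1) 1) k
  · intro t
    exact loc_of_sub (fun U C h => h.1) isoInv_prop k
  · exact loc_of_sub (fun U C h => h.toIsCircuit) isoInv_circ k
  · intro c δ hδ k hk
    obtain ⟨k, rfl⟩ : ∃ k', k = k' + 1 := ⟨k - 1, by omega⟩
    refine ⟨not_slice_lo c δ hδ k, ?_⟩
    intro t d ht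
    obtain ⟨t, rfl⟩ : ∃ t', t = t' + 1 := ⟨t - 1, by omega⟩
    refine ⟨not_slice_hi c δ hδ k t d, ?_⟩
    intro h
    exact not_slice_hi c δ hδ k t d (tt_sub_left (fun U C h => ⟨h.1.1, h.2⟩) h)

end Pool.Agent.Results.MP_39539f_lc.LocalStrict
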