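import Mathlib
import Pool.Agent.WSatMon.Fwd
import Pool.Agent.WSatMon.LinkC
import Pool.Agent.WSatMon.LinkE
import Pool.Agent.WSatMon.LinkF

namespace Pool.Agent.Results.MP_39539f_lc.MonotoneStrict

open Pool.Agent.WSatMon

/-- Reductions computed by monotone circuits of size `e(k) * n ^ c` (of any depth): the chain holds
and every inequality of the chain is strict. For a single slice: if
`(16 (t + 1) (d + 1) (c + 1)) ^ 4 < k` then the slice `k` of `p-WSAT(Γ_{t+1,1})` and that of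
`p-WSAT(PROP)` have no reduction of exponent `c` to `p-WSAT(Γ_{t,d})`; similarly for `Γ_{1,2}` and
`Γ_{1,1}` if `(8 (c + 1)) ^ 4 ≤ k`, and for `CIRC` and `PROP` if `12 (c + 1) ≤ k`. -/
theorem result :
    (ReducesMon (GAMMA 1 1) (GAMMA 1 2) ∧ ReducesMon (GAMMA 1 2) (GAMMA 2 1) ∧
      (∀ t, 1 ≤ t → ReducesMon (GAMMA t 1) (GAMMA (t + 1) 1)) ∧
      (∀ t, 1 ≤ t → ReducesMon (GAMMA t 1) PROP) ∧ ReducesMon PROP CIRC) ∧
    (∀ t d c k : ℕ, 1 ≤ t → (16 * (t + 1) * (d + 1) * (c + 1)) ^ 4 < k →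
      ¬ SliceMon c k (GAMMA (t + 1) 1) (GAMMA t d) ∧ ¬ SliceMon c k PROP (GAMMA t d)) ∧
    (∀ c k : ℕ, (8 * (c + 1)) ^ 4 ≤ k → ¬ SliceMon c k (GAMMA 1 2) (GAMMA 1 1)) ∧
    (∀ c k : ℕ, 12 * (c + 1) ≤ k → ¬ SliceMon c k CIRC PROP) ∧
    (∀ t d, 1 ≤ t →
      ¬ ReducesMon (GAMMA (t + 1) 1) (GAMMA t d) ∧ ¬ ReducesMon PROP (GAMMA t d)) ∧
    ¬ ReducesMon (GAMMA 1 2) (GAMMA 1 1) ∧ ¬ ReducesMon CIRC PROP := by
  have h1 : ∀ t d c k : ℕ, 1 ≤ t → (16 * (t + 1) * (d + 1) * (c + 1)) ^ 4 < k →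
      ¬ SliceMon c k (GAMMA (t + 1) 1) (GAMMA t d) ∧ ¬ SliceMon c k PROP (GAMMA t d) := by
    intro t d c k ht hk
    have h2 : ¬ SliceMon c k (GAMMA (t + 1) 1) (GAMMA t d) := by
      obtain ⟨k, rfl⟩ : ∃ k', k = k' + 1 := ⟨k - 1, by omega⟩
      refine link t d c k ht (le_trans ?_ (Nat.lt_succ_iff.1 hk))
      have e1 : c1 c t d + 1 ≤ 8 * (t + 1) * (d + 1) * (c + 1) := by
        unfold c1
        have : 8 * (t + 1) * (d + 1) * (c + 1) = 8 * (t * d * c) + 8 * (t * d) + 8 * (t * c) +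
            8 * (d * c) + 8 * t + 8 * d + 8 * c + 8 := by ring
        rw [this]
        have e2 : ((2 * t + 1) * c + 1) * (3 * d + 1) + 1 + 1 = 6 * (t * d * c) + 2 * (t * c) +
            3 * (d * c) + c + 3 * d + 3 := by ring
        rw [e2]
        omega
      obtain ⟨u, hu⟩ : ∃ u, u = c1 c t d + 1 := ⟨_, rfl⟩
      have e3 : (16 * (t + 1) * (d + 1) * (c + 1)) ^ 4 =
          16 * (8 * (t + 1) * (d + 1) * (c + 1)) ^ 4 := by ring
      have e4 : u ^ 4 ≤ (8 * (t + 1) * (d + 1) * (c + 1)) ^ 4 := Nat.pow_le_pow_left (hu ▸ e1) 4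
      have e5 : thr c t d = 2 * ((u * u + 1) * (u * u + 2)) + 3 := by
        unfold thr
        rw [hu]
      have hu1 : 1 ≤ u := by omega
      have e6 : 2 * ((u * u + 1) * (u * u + 2)) + 3 ≤ 16 * u ^ 4 := by
        have h5 : 1 ≤ u * u := Nat.mul_pos hu1 hu1
        have h6 : u ^ 4 = (u * u) * (u * u) := by ring
        rw [h6]
        nlinarith
      rw [e5, e3]
      exact e6.trans (Nat.mul_le_mul_left _ e4)
    refine ⟨h2, fun h => h2 ?_⟩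
    obtain ⟨e, he⟩ := h
    exact ⟨e, fun F hF => he F hF.1⟩
  have h2 : ∀ c k : ℕ, (8 * (c + 1)) ^ 4 ≤ k → ¬ SliceMon c k (GAMMA 1 2) (GAMMA 1 1) := by
    intro c k hk
    refine linkF c k (le_trans ?_ hk)
    unfold thr1
    have e3 : (8 * (c + 1)) ^ 4 = 16 * (4 * c + 4) ^ 4 := by ring
    rw [e3]
    obtain ⟨u, hu⟩ : ∃ u, u = 4 * c + 4 := ⟨_, rfl⟩
    rw [← hu]
    have hu1 : 1 ≤ u := by omega
    have h5 : 1 ≤ u * u := Nat.mul_pos hu1 hu1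
    have h6 : u ^ 4 = (u * u) * (u * u) := by ring
    rw [h6]
    nlinarith
  have h3 : ∀ c k : ℕ, 12 * (c + 1) ≤ k → ¬ SliceMon c k CIRC PROP := by
    intro c k hk
    refine linkC c k (le_trans ?_ hk)
    unfold c1
    omega
  refine ⟨⟨red_up 1 1, red_two, fun t _ => red_next t, fun t _ => red_PROP t, red_CIRC⟩,
    h1, h2, h3, ?_, ?_, ?_⟩
  · rintro t d ht
    constructor
    · rintro ⟨c, hc⟩
      exact (h1 t d c _ ht (Nat.lt_succ_self _)).1 (hc _)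
    · rintro ⟨c, hc⟩
      exact (h1 t d c _ ht (Nat.lt_succ_self _)).2 (hc _)
  · rintro ⟨c, hc⟩
    exact h2 c _ (le_refl _) (hc _)
  · rintro ⟨c, hc⟩
    exact h3 c _ (le_refl _) (hc _)

end Pool.Agent.Results.MP_39539f_lc.MonotoneStrict
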